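import Pool.Agent.H20.ER3.Lib

/-!
# MP_816b90_co, row CC: `R` is even after the contraction
-/

set_option autoImplicit false

namespace Pool.Agent.H36.ER3

open Pool.Agent.H48.ER Pool.Agent.H52.ER2 Pool.Agent.H66.ER2 Pool.Agent.H20.ER3

variable {V : Type} {G : SimpleGraph V} {R : Set V}

/-- the path starts at the new vertex -/
theorem cc_left {p q : V} (hE : EvS G R) (hp : p ∉ R) (hq : q ∉ R) (hpq : p ≠ q) {n : ℕ} {d : V}
    {X : Set V} (hX : IP (ctr G p q) n p d X) (hd : d ∉ R) (hn : 2 ≤ n)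
    (hi : ∀ w ∈ X, w = p ∨ w = d ∨ w ∈ R) : Even n := by
  classical
  obtain ⟨g, g0, gn, ginj, gadj, rfl⟩ := hX
  have hgq : ∀ i, i ≤ n → g i ≠ q := by
    intro i hi h
    have h1 : ∃ j, j ≤ n ∧ (i + 1 = j ∨ j + 1 = i) := by
      rcases Nat.eq_zero_or_pos i with h0 | h0
      · exact ⟨1, by omega, by omega⟩
      · exact ⟨i - 1, by omega, by omega⟩
    obtain ⟨j, hj, hj2⟩ := h1
    have h2 := (gadj i j hi hj).2 hj2
    rw [h] at h2
    exact ctr_not_adj h2
  have hgp : ∀ i, 1 ≤ i → i ≤ n → g i ≠ p := by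
    intro i hi1 hi2 h
    have := ginj i 0 hi2 (Nat.zero_le _) (h.trans g0.symm)
    omega
  have h01 : (ctr G p q).Adj p (g 1) := by
    have := (gadj 0 1 (Nat.zero_le _) (by omega)).2 (Or.inl rfl)
    rwa [g0] at this
  obtain ⟨z, hz, hz1⟩ : ∃ z, (z = p ∨ z = q) ∧ G.Adj z (g 1) := by
    rcases h01.2.2.2 with h | ⟨_, h⟩ | ⟨h, _⟩
    · exact ⟨p, Or.inl rfl, h⟩
    · exact ⟨q, Or.inr rfl, h⟩
    · exact absurd h (hgp 1 le_rfl (by omega))
  have hzR : z ∉ R := by
    rcases hz with rfl | rfl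
    · exact hp
    · exact hq
  have hzg : ∀ i, 1 ≤ i → i ≤ n → z ≠ g i := by
    intro i h1 h2 h
    rcases hz with rfl | rfl
    · exact hgp i h1 h2 h.symm
    · exact hgq i h2 h.symm
  have hzadj : ∀ i, 1 ≤ i → i ≤ n → (G.Adj z (g i) ↔ i = 1) := by
    intro i h1 h2
    constructor
    · intro h
      have h3 : (ctr G p q).Adj p (g i) := by
        refine ⟨(hgp i h1 h2).symm, hpq, hgq i h2, ?_⟩
        rcases hz with rfl | rfl
        · exact Or.inl h
        · exact Or.inr (Or.inl ⟨rfl, h⟩)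
      have h4 := gadj 0 i (Nat.zero_le _) h2
      rw [g0] at h4
      have h5 := h4.1 h3
      omega
    · rintro rfl
      exact hz1
  have hadj : ∀ i j, 1 ≤ i → i ≤ n → 1 ≤ j → j ≤ n →
      (G.Adj (g i) (g j) ↔ i + 1 = j ∨ j + 1 = i) := by
    intro i j i1 i2 j1 j2
    rw [← gadj i j i2 j2]
    exact (ctr_adj_of_ne (hgp i i1 i2) (hgq i i2) (hgp j j1 j2) (hgq j j2)).symm
  set g' : ℕ → V := fun i => if i = 0 then z else g i with hg'
  have e0 : g' 0 = z := by rw [hg']; exact if_pos rfl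
  have e1 : ∀ i, 1 ≤ i → g' i = g i := by
    intro i hi
    rw [hg']
    exact if_neg (by omega)
  have hip : IP G n z d {v | ∃ i, i ≤ n ∧ g' i = v} := by
    refine ⟨g', e0, ?_, ?_, ?_, rfl⟩
    · rw [e1 n (by omega), gn]
    · intro i j hi hj h
      rcases Nat.eq_zero_or_pos i with rfl | hi0 <;> rcases Nat.eq_zero_or_pos j with rfl | hj0
      · rfl
      · rw [e0, e1 j hj0] at h
        exact absurd h (hzg j hj0 hj)
      · rw [e0, e1 i hi0] at h
        exact absurd h.symm (hzg i hi0 hi)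
      · rw [e1 i hi0, e1 j hj0] at h
        exact ginj i j hi hj h
    · intro i j hi hj
      rcases Nat.eq_zero_or_pos i with rfl | hi0 <;> rcases Nat.eq_zero_or_pos j with rfl | hj0
      · constructor
        · intro h
          exact absurd h (G.loopless.irrefl _)
        · intro h
          omega
      · rw [e0, e1 j hj0, hzadj j hj0 hj]
        omega
      · rw [e0, e1 i hi0, G.adj_comm, hzadj i hi0 hi]
        omega
      · rw [e1 i hi0, e1 j hj0]
        exact hadj i j hi0 hi hj0 hj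
  refine hE n z d _ hip hzR hd (by omega) ?_
  rintro w ⟨i, hi1, rfl⟩
  rcases Nat.eq_zero_or_pos i with rfl | hi0
  · exact Or.inl e0
  · rw [e1 i hi0]
    rcases hi (g i) ⟨i, hi1, rfl⟩ with h | h | h
    · exact absurd h (hgp i hi0 hi1)
    · exact Or.inr (Or.inl h)
    · exact Or.inr (Or.inr h)

theorem pf_CC : U_CC := by
  intro V G R p q hE hp hq hpq _ n c d X hX hc hd hn hi
  rcases Nat.lt_or_ge n 2 with h2 | h2
  · have : n = 0 := by omega
    rw [this]
    exact Even.zero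
  by_cases hcp : c = p
  · subst hcp
    exact cc_left hE hp hq hpq hX hd h2 hi
  by_cases hdp : d = p
  · subst hdp
    refine cc_left hE hp hq hpq hX.rev hc h2 fun w hw => ?_
    rcases hi w hw with h | h | h
    · exact Or.inr (Or.inl h)
    · exact Or.inl h
    · exact Or.inr (Or.inr h)
  -- the new vertex is not on the path
  obtain ⟨g, g0, gn, ginj, gadj, hXe⟩ := id hX
  have hgq : ∀ w ∈ X, w ≠ q := by
    rw [hXe]
    rintro w ⟨i, hi, rfl⟩ h
    have h1 : ∃ j, j ≤ n ∧ (i + 1 = j ∨ j + 1 = i) := by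
      rcases Nat.eq_zero_or_pos i with h0 | h0
      · exact ⟨1, by omega, by omega⟩
      · exact ⟨i - 1, by omega, by omega⟩
    obtain ⟨j, hj, hj2⟩ := h1
    have h2 := (gadj i j hi hj).2 hj2
    rw [h] at h2
    exact ctr_not_adj h2
  have hgp : ∀ w ∈ X, w ≠ p := by
    intro w hw h
    rcases hi w hw with h1 | h1 | h1
    · exact hcp (h1.symm.trans h)
    · exact hdp (h1.symm.trans h)
    · rw [h] at h1
      exact hp h1
  refine hE n c d X (hX.congr fun u hu v hv => ?_) hc hd hn hi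
  exact (ctr_adj_of_ne (hgp u hu) (hgq u hu) (hgp v hv) (hgq v hv)).symm

end Pool.Agent.H36.ER3
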