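import Pool.Agent.H20.ER3.Lib

/-!
# MP_816b90_co, row QE: symmetries of minimal odd prisms
-/

set_option autoImplicit false

namespace Pool.Agent.H36.ER3

open Pool.Agent.H48.ER Pool.Agent.H52.ER2 Pool.Agent.H66.ER2 Pool.Agent.H20.ER3

theorem pf_QE (hPP : U_PP) : U_QE := by
  intro V o G R n g h
  obtain ⟨h1, h2, h3⟩ := hPP _ _ n g h.pi
  refine ⟨fun σ hσ => ?_, ?_⟩
  · obtain ⟨a, b⟩ := h1 σ hσ
    refine ⟨a, fun i => h.odd (σ i), ?_, fun n' g' hp ho hal => ?_⟩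
    · rw [b]
      exact h.al
    · rw [b]
      exact h.mn n' g' hp ho hal
  · refine ⟨h2, h.odd, ?_, fun n' g' hp ho hal => ?_⟩
    · rw [h3]
      exact h.al
    · rw [h3]
      exact h.mn n' g' hp ho hal

end Pool.Agent.H36.ER3
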